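import Pool.Agent.H66.TBG.Mat

/-!
# The family of two-bridge knots
-/

set_option autoImplicit false

namespace Pool.Agent.H66.TBG

open Pool.Agent.N518.KT Pool.Agent.K7.H38.TB Polynomial Matrix

noncomputable section

/-! ### digits -/

theorem digits_inj {y : ℤ} (n : ℕ) (d d' : ℕ → ℤ) (h : ∀ t < n, 1 ≤ d t ∧ d t ≤ y)
    (h' : ∀ t < n, 1 ≤ d' t ∧ d' t ≤ y)
    (e : ∑ t ∈ Finset.range n, d t * y ^ t = ∑ t ∈ Finset.range n, d' t * y ^ t) :
    ∀ t < n, d t = d' t := by
  induction n generalizing d d' with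
  | zero => intro t ht; omega
  | succ n ih =>
    rw [Finset.sum_range_succ', Finset.sum_range_succ'] at e
    have h0 := h 0 (by omega)
    have h0' := h' 0 (by omega)
    have e1 : ∀ D : ℕ → ℤ, ∑ t ∈ Finset.range n, D (t + 1) * y ^ (t + 1) =
        y * ∑ t ∈ Finset.range n, D (t + 1) * y ^ t := by
      intro D
      rw [Finset.mul_sum]
      exact Finset.sum_congr rfl fun t _ => by ring
    rw [e1, e1, pow_zero, mul_one, mul_one] at e
    set S := ∑ t ∈ Finset.range n, d (t + 1) * y ^ t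
    set S' := ∑ t ∈ Finset.range n, d' (t + 1) * y ^ t
    have hd : d 0 - d' 0 = y * (S' - S) := by linear_combination e
    have hy : 0 < y := by omega
    have h2 : S' - S = 0 := by
      by_contra hne
      have h3 : y ≤ |y * (S' - S)| := by
        rw [abs_mul, abs_of_pos hy]
        have : 1 ≤ |S' - S| := Int.one_le_abs hne
        nlinarith
      rw [← hd] at h3
      have h4 : |d 0 - d' 0| < y := by
        rw [abs_lt]
        constructor <;> omega
      omega
    have h5 : d 0 = d' 0 := by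
      rw [h2, mul_zero] at hd
      omega
    have h6 := ih (fun t => d (t + 1)) (fun t => d' (t + 1)) (fun t ht => h (t + 1) (by omega))
      (fun t ht => h' (t + 1) (by omega)) (by
        show S = S'
        omega)
    intro t ht
    rcases t with _ | t
    · exact h5
    · exact h6 t (by omega)

/-! ### the words -/

/-- the entries `(δ, y, …, y, 1, …, 1)`, `n` entries, `t` of them `y` -/
def ent (y : ℤ) (n t : ℕ) (δ : ℤ) : List ℤ :=
  δ :: (List.replicate t y ++ List.replicate (n - 1 - t) 1)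

theorem ent_prod (y : ℤ) (n t : ℕ) (δ : ℤ) : (ent y n t δ).prod = δ * y ^ t := by
  simp [ent]

theorem ent_length (y : ℤ) {n t : ℕ} (h : t < n) :
    (List.replicate t y ++ List.replicate (n - 1 - t) 1).length = n - 1 := by
  rw [List.length_append, List.length_replicate, List.length_replicate]
  omega

theorem ent_form (y : ℤ) {n t : ℕ} (δ : ℤ) (hn : 2 ≤ n) (h : t < n) :
    ∃ f l, ent y n t δ = δ :: f :: l ∧ l.length + 2 = n := by
  have h1 := ent_length y h
  rcases hm : (List.replicate t y ++ List.replicate (n - 1 - t) (1 : ℤ)) with _ | ⟨f, l⟩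
  · rw [hm] at h1
    simp at h1
    omega
  · refine ⟨f, l, by rw [ent, hm], ?_⟩
    rw [hm, List.length_cons] at h1
    omega

/-- the words with `n` entries in the commutators -/
def PL (y : ℤ) (n : ℕ) (δ : ℕ → ℤ) : ℕ → List ℤ
  | 0 => []
  | (m + 1) => PL y n δ m ++ xl (ent y n m (δ m))

/-- the word with all digits -/
def WW (y : ℤ) (d : ℕ → ℕ → ℤ) : ℕ → List ℤ
  | 0 => []
  | (k + 1) => WW y d k ++ PL y (k + 2) (d (k + 2)) (k + 2)

theorem xe_length (y : ℤ) {n t : ℕ} (δ : ℤ) (hn : 2 ≤ n) (h : t < n) :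
    (xl (ent y n t δ)).length = 2 ^ n := by
  obtain ⟨f, l, e, hl⟩ := ent_form y δ hn h
  rw [e, xl_length, hl]

theorem PL_length (y : ℤ) {n : ℕ} (δ : ℕ → ℤ) (hn : 2 ≤ n) {m : ℕ} (hm : m ≤ n) :
    (PL y n δ m).length = m * 2 ^ n := by
  induction m with
  | zero => simp [PL]
  | succ m ih =>
    rw [PL, List.length_append, ih (by omega), xe_length y _ hn (by omega)]
    ring

theorem WW_length (y : ℤ) (d : ℕ → ℕ → ℤ) (k : ℕ) :
    (WW y d k).length = 2 * ∑ n ∈ Finset.Icc 2 (k + 1), n * 2 ^ (n - 1) := by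
  induction k with
  | zero => simp [WW]
  | succ k ih =>
    rw [WW, List.length_append, ih, PL_length y _ (by omega) le_rfl,
      Finset.sum_Icc_succ_top (a := 2) (b := k + 1) (by omega)]
    have h1 : k + 1 + 1 - 1 = k + 1 := by omega
    rw [h1]
    ring

theorem PL_even (y : ℤ) {n : ℕ} (δ : ℕ → ℤ) (hn : 2 ≤ n) {m : ℕ} (hm : m ≤ n) :
    Even (PL y n δ m).length := by
  rw [PL_length y δ hn hm]
  exact Even.mul_left (Nat.even_pow.2 ⟨even_two, by omega⟩) _

theorem WW_even (y : ℤ) (d : ℕ → ℕ → ℤ) (k : ℕ) : Even (WW y d k).length := by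
  rw [WW_length]
  exact even_two_mul _

theorem xe_sum (y : ℤ) {n t : ℕ} (δ : ℤ) (hn : 2 ≤ n) (h : t < n) :
    (xl (ent y n t δ)).sum = 0 := by
  obtain ⟨f, l, e, hl⟩ := ent_form y δ hn h
  rw [e, xl_sum]

theorem PL_sum (y : ℤ) {n : ℕ} (δ : ℕ → ℤ) (hn : 2 ≤ n) {m : ℕ} (hm : m ≤ n) :
    (PL y n δ m).sum = 0 := by
  induction m with
  | zero => simp [PL]
  | succ m ih => rw [PL, List.sum_append, ih (by omega), xe_sum y _ hn (by omega), add_zero]

theorem WW_sum (y : ℤ) (d : ℕ → ℕ → ℤ) (k : ℕ) : (WW y d k).sum = 0 := by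
  induction k with
  | zero => rfl
  | succ k ih => rw [WW, List.sum_append, ih, PL_sum y _ (by omega) le_rfl, add_zero]

theorem PL_prop {y : ℤ} (hy : 1 ≤ y) {n : ℕ} {δ : ℕ → ℤ} (hδ : ∀ t < n, 1 ≤ δ t ∧ δ t ≤ y)
    {m : ℕ} (hm : m ≤ n) : ∀ x ∈ PL y n δ m, x ≠ 0 ∧ |x| ≤ y := by
  have hP : ∀ x : ℤ, (x ≠ 0 ∧ |x| ≤ y) → (-x ≠ 0 ∧ |-x| ≤ y) := fun x h =>
    ⟨neg_ne_zero.2 h.1, by rw [abs_neg]; exact h.2⟩
  induction m with
  | zero => simp [PL]
  | succ m ih =>
    intro x hx
    rw [PL, List.mem_append] at hx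
    rcases hx with hx | hx
    · exact ih (by omega) x hx
    · refine xl_prop (P := fun x => x ≠ 0 ∧ |x| ≤ y) hP _ ?_ x hx
      intro z hz
      have h1 := hδ m (by omega)
      unfold ent at hz
      simp only [List.mem_cons, List.mem_append, List.mem_replicate] at hz
      rcases hz with rfl | ⟨-, rfl⟩ | ⟨-, rfl⟩
      · exact ⟨by omega, by rw [abs_of_pos (by omega)]; exact h1.2⟩
      · exact ⟨by omega, by rw [abs_of_pos (by omega)]⟩
      · exact ⟨one_ne_zero, by simpa using hy⟩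

theorem WW_prop {y : ℤ} (hy : 1 ≤ y) {d : ℕ → ℕ → ℤ} (hd : ∀ n t, 1 ≤ d n t ∧ d n t ≤ y)
    (k : ℕ) : ∀ x ∈ WW y d k, x ≠ 0 ∧ |x| ≤ y := by
  induction k with
  | zero => simp [WW]
  | succ k ih =>
    intro x hx
    rw [WW, List.mem_append] at hx
    rcases hx with hx | hx
    · exact ih x hx
    · exact PL_prop hy (fun t _ => hd _ t) le_rfl x hx

/-! ### leading terms -/

theorem lead_PL (y : ℤ) {n : ℕ} (δ : ℕ → ℤ) (hn : 2 ≤ n) {m : ℕ} (hm : m ≤ n) :
    Lead io TT n ((∑ t ∈ Finset.range m, δ t * y ^ t) • altr EE FF (n - 1))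
      (evl ga gb (PL y n δ m)) := by
  induction m with
  | zero => simpa [PL, evl] using Lead.one filt n
  | succ m ih =>
    have h1 := ih (by omega)
    have h2 : Lead io TT n ((δ m * y ^ m) • altr EE FF (n - 1))
        (evl ga gb (xl (ent y n m (δ m)))) := by
      obtain ⟨f, l, e, hl⟩ := ent_form y (δ m) hn (show m < n by omega)
      have h3 := lead_alt filt lead_ga lead_gb (δ m) (f :: l)
      rw [← e, ent_prod, List.length_cons] at h3
      rw [e, evl_xl, ← e]
      have e2 : l.length + 1 + 1 = n := by omega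
      have e3 : l.length + 1 = n - 1 := by omega
      rw [e2, e3] at h3
      exact h3
    have h3 := h1.mul filt (by omega) h2
    rw [← add_smul, ← Finset.sum_range_succ] at h3
    rw [PL, evl_even _ _ _ (PL_even y δ hn (by omega))]
    exact h3

theorem lead_WW (y : ℤ) (d : ℕ → ℕ → ℤ) (k : ℕ) : io (evl ga gb (WW y d k)) - 1 ∈ TT 1 := by
  induction k with
  | zero =>
    have : io (evl ga gb (WW y d 0)) - 1 = 0 := by simp [WW, evl]
    rw [this]
    exact (TT 1).zero_mem
  | succ k ih =>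
    rw [WW, evl_even _ _ _ (WW_even y d k), map_mul]
    have h1 := (lead_PL y (d (k + 2)) (n := k + 2) (by omega) le_rfl).diff filt
    have e : io (evl ga gb (WW y d k)) * io (evl ga gb (PL y (k + 2) (d (k + 2)) (k + 2))) - 1 =
        (io (evl ga gb (WW y d k)) - 1) + io (evl ga gb (WW y d k)) *
          (io (evl ga gb (PL y (k + 2) (d (k + 2)) (k + 2))) - 1) := by
      noncomm_ring
    rw [e]
    exact (TT 1).add_mem ih (filt.le (by omega) (filt.left (filt.mem _) h1))

/-- the effect of the last factor -/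
theorem fi_step (y : ℤ) (d : ℕ → ℕ → ℤ) (k : ℕ) :
    (∀ n, n ≤ k + 1 → fi n (io (evl ga gb (WW y d (k + 1)))) = fi n (io (evl ga gb (WW y d k)))) ∧
    fi (k + 2) (io (evl ga gb (WW y d (k + 1)))) = fi (k + 2) (io (evl ga gb (WW y d k))) +
      fi (k + 2) (altr EE FF (k + 1)) * ∑ t ∈ Finset.range (k + 2), d (k + 2) t * y ^ t := by
  have hL := lead_PL y (d (k + 2)) (n := k + 2) (by omega) le_rfl
  set S := ∑ t ∈ Finset.range (k + 2), d (k + 2) t * y ^ t with hS
  set P := evl ga gb (PL y (k + 2) (d (k + 2)) (k + 2)) with hP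
  set W := evl ga gb (WW y d k) with hW
  have e0 : io (evl ga gb (WW y d (k + 1))) = io W * io P := by
    rw [WW, evl_even _ _ _ (WW_even y d k), map_mul]
  refine ⟨?_, ?_⟩
  · intro n hn
    have e1 : io W * io P = io W + io W * (io P - 1) := by noncomm_ring
    rw [e0, e1, map_add, fi_TT (k := k + 2) (by omega) (filt.left (filt.mem W) (hL.diff filt)),
      add_zero]
  · have e1 : io W * io P = io W + S • altr EE FF (k + 1) + (io W - 1) * (S • altr EE FF (k + 1)) +
        io W * (io P - 1 - S • altr EE FF (k + 1)) := by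
      generalize S • altr EE FF (k + 1) = Z
      noncomm_ring
    have h1 : (io W - 1) * (S • altr EE FF (k + 1)) ∈ TT (k + 3) := by
      have := filt.mul 1 (k + 2) _ _ (lead_WW y d k) hL.1
      rw [show 1 + (k + 2) = k + 3 by omega] at this
      exact this
    have h2 : io W * (io P - 1 - S • altr EE FF (k + 1)) ∈ TT (k + 3) :=
      filt.left (filt.mem W) hL.2
    rw [e0, e1, map_add, map_add, map_add, fi_TT (by omega) h1, fi_TT (by omega) h2, add_zero,
      add_zero, map_zsmul, smul_eq_mul, mul_comm S]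

/-- **the digits are determined** -/
theorem digits_of_fi {y : ℤ} (k : ℕ) (d d' : ℕ → ℕ → ℤ) (h : ∀ n t, 1 ≤ d n t ∧ d n t ≤ y)
    (h' : ∀ n t, 1 ≤ d' n t ∧ d' n t ≤ y)
    (e : ∀ n, 2 ≤ n → n ≤ k + 1 →
      fi n (io (evl ga gb (WW y d k))) = fi n (io (evl ga gb (WW y d' k)))) :
    (∀ n, 2 ≤ n → n ≤ k + 1 → ∀ t < n, d n t = d' n t) ∧ WW y d k = WW y d' k := by
  induction k with
  | zero => exact ⟨fun n h1 h2 => by omega, rfl⟩
  | succ k ih =>
    obtain ⟨h1, h2⟩ := fi_step y d k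
    obtain ⟨h1', h2'⟩ := fi_step y d' k
    have hc : fi (k + 2) (altr EE FF (k + 1)) ≠ 0 := by
      obtain ⟨c, hc, hv⟩ := fi_altr (k + 1)
      rw [hv]
      exact hc
    have i1 := ih fun n hn hn' => by rw [← h1 n hn', ← h1' n hn', e n hn (by omega)]
    have e2 := e (k + 2) (by omega) (by omega)
    rw [h2, h2', i1.2] at e2
    have e3 := mul_left_cancel₀ hc (add_left_cancel e2)
    have e4 := digits_inj (k + 2) (d (k + 2)) (d' (k + 2)) (fun t _ => h _ t)
      (fun t _ => h' _ t) e3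
    have e5 : ∀ m, m ≤ k + 2 → PL y (k + 2) (d (k + 2)) m = PL y (k + 2) (d' (k + 2)) m := by
      intro m hm
      induction m with
      | zero => rfl
      | succ m ihm => rw [PL, PL, ihm (by omega), e4 m (by omega)]
    refine ⟨fun n hn hn' t ht => ?_, ?_⟩
    · rcases Nat.lt_or_ge n (k + 2) with h3 | h3
      · exact i1.1 n hn (by omega) t ht
      · have : n = k + 2 := by omega
        subst this
        exact e4 t ht
    · rw [WW, WW, i1.2, e5 _ le_rfl]

end

end Pool.Agent.H66.TBG
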