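import Pool.Graph.R_pool_sql_team_seeded_63374d34.N518.KT.Lead
import Pool.Graph.R_pool_sql_team_seeded_35f281b4.K7.H38.TB.Quad

/-!
# Alternating nested commutators as alternating products
-/

set_option autoImplicit false

namespace Pool.Agent.H66.TBG

open Pool.Agent.N518.KT

/-! ### alternating products -/

section grp

variable {G : Type*} [Group G]

/-- the product `a ^ e₁ b ^ e₂ a ^ e₃ ⋯` -/
def evl (a b : G) : List ℤ → G
  | [] => 1
  | e :: l => a ^ e * evl b a l

theorem evl_append (a b : G) (l m : List ℤ) : evl a b (l ++ m) =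
    evl a b l * (if Even l.length then evl a b m else evl b a m) := by
  induction l generalizing a b with
  | nil => simp [evl]
  | cons e l ih =>
    rw [List.cons_append, evl, ih, evl, List.length_cons, mul_assoc]
    by_cases h : Even l.length
    · rw [if_pos h, if_neg (by rw [Nat.even_add_one]; exact not_not.2 h)]
    · rw [if_neg h, if_pos (by rw [Nat.even_add_one]; exact h)]

theorem evl_even (a b : G) {l : List ℤ} (m : List ℤ) (h : Even l.length) :
    evl a b (l ++ m) = evl a b l * evl a b m := by rw [evl_append, if_pos h]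

theorem evl_odd (a b : G) {l : List ℤ} (m : List ℤ) (h : ¬ Even l.length) :
    evl a b (l ++ m) = evl a b l * evl b a m := by rw [evl_append, if_neg h]

/-- the inverse word -/
def rn (l : List ℤ) : List ℤ := l.reverse.map fun x => -x

theorem rn_length (l : List ℤ) : (rn l).length = l.length := by simp [rn]

theorem rn_cons (e : ℤ) (l : List ℤ) : rn (e :: l) = rn l ++ [-e] := by simp [rn]

theorem evl_rn (a b : G) (l : List ℤ) : evl a b (rn l) =
    if Even l.length then (evl b a l)⁻¹ else (evl a b l)⁻¹ := by
  induction l generalizing a b with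
  | nil => simp [rn, evl]
  | cons e l ih =>
    rw [rn_cons, evl_append, rn_length, ih, List.length_cons]
    by_cases h : Even l.length
    · rw [if_pos h, if_pos h, if_neg (by rw [Nat.even_add_one]; exact not_not.2 h)]
      simp [evl]
    · rw [if_neg h, if_neg h, if_pos (by rw [Nat.even_add_one]; exact h)]
      simp [evl]

theorem evl_rn_odd (a b : G) {l : List ℤ} (h : ¬ Even l.length) :
    evl a b (rn l) = (evl a b l)⁻¹ := by rw [evl_rn, if_neg h]

/-- the alternating nested commutator `[a ^ e₁, [b ^ e₂, [a ^ e₃, ⋯]]]` -/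
def alt (a b : G) : List ℤ → G
  | [] => 1
  | [e] => a ^ e
  | e :: (f :: l) => cm (a ^ e) (alt b a (f :: l))

end grp

/-- the reduced word of the alternating nested commutator -/
def xl : List ℤ → List ℤ
  | [] => []
  | [e] => [e]
  | [e, f] => [e, f, -e, -f]
  | e :: (f :: (h :: l)) => e :: ((xl (f :: (h :: l))).dropLast ++
      (-e :: rn (xl (f :: (h :: l))).dropLast))

theorem xl_two (e f : ℤ) : xl [e, f] = [e, f, -e, -f] := rfl

theorem xl_three (e f h : ℤ) (l : List ℤ) : xl (e :: f :: h :: l) =
    e :: ((xl (f :: h :: l)).dropLast ++ (-e :: rn (xl (f :: h :: l)).dropLast)) := rfl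

theorem xl_length (e f : ℤ) (l : List ℤ) : (xl (e :: f :: l)).length = 2 ^ (l.length + 2) := by
  induction l generalizing e f with
  | nil => rfl
  | cons h l ih =>
    rw [xl_three, List.length_cons, List.length_append, List.length_cons, rn_length,
      List.length_dropLast, ih, List.length_cons]
    have : 0 < 2 ^ (l.length + 2) := by positivity
    have e1 : 2 ^ (l.length + 1 + 2) = 2 * 2 ^ (l.length + 2) := by ring
    omega

/-- the word begins with the first entry -/
theorem xl_head (e f : ℤ) (l : List ℤ) : ∃ m, xl (e :: f :: l) = e :: m := by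
  rcases l with _ | ⟨h, l⟩
  · exact ⟨_, rfl⟩
  · exact ⟨_, rfl⟩

/-- the word ends with the negative of the second entry -/
theorem xl_last (e f : ℤ) (l : List ℤ) : ∃ m, xl (e :: f :: l) = m ++ [-f] ∧
    m = (xl (e :: f :: l)).dropLast := by
  rcases l with _ | ⟨h, l⟩
  · exact ⟨[e, f, -e], rfl, rfl⟩
  · obtain ⟨m, hm⟩ := xl_head f h l
    have hlen := xl_length f h l
    rcases m with _ | ⟨x, m⟩
    · rw [hm] at hlen
      have : 4 ≤ 2 ^ (l.length + 2) := by
        rw [pow_add]
        have : 1 ≤ 2 ^ l.length := Nat.one_le_two_pow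
        omega
      simp at hlen
      omega
    · have e1 : (xl (f :: h :: l)).dropLast = f :: (x :: m).dropLast := by
        rw [hm, List.dropLast_cons_of_ne_nil (by simp)]
      have e2 : xl (e :: f :: h :: l) = (e :: ((xl (f :: h :: l)).dropLast ++
          (-e :: rn (x :: m).dropLast))) ++ [-f] := by
        rw [xl_three]
        conv_lhs => rw [e1, rn_cons]
        rw [e1]
        simp
      refine ⟨_, e2, ?_⟩
      rw [e2, List.dropLast_append_of_ne_nil (by simp)]
      simp

theorem evl_xl {G : Type*} [Group G] (a b : G) (e f : ℤ) (l : List ℤ) :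
    evl a b (xl (e :: f :: l)) = alt a b (e :: f :: l) := by
  induction l generalizing a b e f with
  | nil =>
    simp [xl_two, evl, alt, cm, mul_assoc]
  | cons h l ih =>
    obtain ⟨m, hm, hm'⟩ := xl_last f h l
    have hlen := xl_length f h l
    have hodd : ¬ Even m.length := by
      rw [hm', List.length_dropLast, hlen]
      have e1 : 2 ^ (l.length + 2) = 2 * 2 ^ (l.length + 1) := by ring
      have : 0 < 2 ^ (l.length + 1) := by positivity
      rw [e1, Nat.not_even_iff_odd]
      exact ⟨2 ^ (l.length + 1) - 1, by omega⟩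
    have h1 : evl b a m * a ^ (-h) = alt b a (f :: h :: l) := by
      rw [← ih b a f h, hm, evl_odd _ _ _ hodd]
      simp [evl]
    rw [xl_three, ← hm', evl, evl_odd _ _ _ hodd, evl, evl_rn_odd _ _ hodd]
    show _ = cm (a ^ e) (alt b a (f :: h :: l))
    rw [← h1]
    unfold cm
    rw [zpow_neg, zpow_neg, mul_inv_rev, inv_inv]
    have : a ^ e * (evl b a m * (a ^ h)⁻¹) * (a ^ e)⁻¹ * (a ^ h * (evl b a m)⁻¹) =
        a ^ e * evl b a m * ((a ^ h)⁻¹ * (a ^ e)⁻¹ * a ^ h) * (evl b a m)⁻¹ := by group
    rw [this]
    have h2 : (a ^ h)⁻¹ * (a ^ e)⁻¹ * a ^ h = (a ^ e)⁻¹ := by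
      rw [← zpow_neg, ← zpow_neg, ← zpow_add, ← zpow_add]
      congr 1
      ring
    rw [h2]
    group

theorem rn_sum (l : List ℤ) : (rn l).sum = -l.sum := by
  induction l with
  | nil => rfl
  | cons e l ih => rw [rn_cons, List.sum_append, ih, List.sum_cons]; simp

theorem xl_sum (e f : ℤ) (l : List ℤ) : (xl (e :: f :: l)).sum = 0 := by
  rcases l with _ | ⟨h, l⟩
  · simp [xl_two]
  · rw [xl_three]
    simp [rn_sum]

/-- a property of the entries -/
theorem xl_prop {P : ℤ → Prop} (hP : ∀ x, P x → P (-x)) (l : List ℤ) (h : ∀ x ∈ l, P x) :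
    ∀ x ∈ xl l, P x := by
  have hrn : ∀ l : List ℤ, (∀ x ∈ l, P x) → ∀ x ∈ rn l, P x := by
    intro l hl x hx
    unfold rn at hx
    rw [List.mem_map] at hx
    obtain ⟨y, hy, rfl⟩ := hx
    exact hP _ (hl y (List.mem_reverse.1 hy))
  rcases l with _ | ⟨e, _ | ⟨f, l⟩⟩
  · simp [xl]
  · simpa [xl] using h
  · induction l generalizing e f with
    | nil =>
      rw [xl_two]
      have h1 := h e (by simp)
      have h2 := h f (by simp)
      intro x hx
      simp only [List.mem_cons, List.not_mem_nil, or_false] at hx
      rcases hx with rfl | rfl | rfl | rfl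
      · exact h1
      · exact h2
      · exact hP _ h1
      · exact hP _ h2
    | cons g l ih =>
      have h1 := h e (by simp)
      have h2 := ih f g fun x hx => h x (List.mem_cons_of_mem _ hx)
      have h3 : ∀ x ∈ (xl (f :: g :: l)).dropLast, P x := fun x hx =>
        h2 x (List.dropLast_subset _ hx)
      rw [xl_three]
      intro x hx
      simp only [List.mem_cons, List.mem_append] at hx
      rcases hx with rfl | hx | rfl | hx
      · exact h1
      · exact h3 x hx
      · exact hP _ h1
      · exact hrn _ h3 x hx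

/-! ### leading terms -/

/-- commutator in the ring -/
def rc {R : Type*} [Ring R] (a b : R) : R := a * b - b * a

/-- the nested commutator `[A, [B, [A, ⋯]]]` with `n + 1` entries -/
def altr {R : Type*} [Ring R] (A B : R) : ℕ → R
  | 0 => A
  | (n + 1) => rc A (altr B A n)

theorem lead_alt {G R : Type*} [Group G] [Ring R] {ι : G →* R} {T : ℕ → Submodule ℤ R}
    (h : Filt ι T) {a b : G} {A B : R} (ha : Lead ι T 1 A a) (hb : Lead ι T 1 B b)
    (e : ℤ) (l : List ℤ) :
    Lead ι T (l.length + 1) ((e :: l).prod • altr A B l.length) (alt a b (e :: l)) := by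
  induction l generalizing e a b A B with
  | nil => simpa [alt, altr] using ha.zpow h le_rfl e
  | cons e' l ih =>
    have h1 := (ha.zpow h le_rfl e).comm h le_rfl (by omega) (ih hb ha e')
    have e1 : 1 + (l.length + 1) = (e' :: l).length + 1 := by rw [List.length_cons]; omega
    rw [e1] at h1
    refine h1.congr ?_
    rw [List.length_cons]
    show _ = _ • rc A (altr B A l.length)
    unfold rc
    rw [List.prod_cons (a := e), smul_mul_smul_comm, smul_mul_smul_comm, mul_comm _ e, smul_sub]

end Pool.Agent.H66.TBG
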