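import Pool.Agent.H66.TBG.Fam
import Pool.Graph.R_pool_sql_team_seeded_35f281b4.K7.H38.TB.Core

/-!
# Two-bridge knots which are separated by the Vassiliev invariants of order `≤ N`
-/

set_option autoImplicit false

namespace Pool.Agent.H66.TBG

open Pool.Agent.N518.KT Pool.Agent.K7.H38.TB Pool.Agent.H835R2.Knot Polynomial Matrix

noncomputable section

/-- knots which are not separated have equal coefficients -/
theorem fi_of_not_sep {l l' : List ℤ} {N : ℕ} (hs : l.sum = 0) (hs' : l'.sum = 0)
    (h : ¬ Separated N (twoBridge l) (twoBridge l')) (n : ℕ) (hn : n ≤ N) :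
    fi n (io (evl ga gb l)) = fi n (io (evl ga gb l')) := by
  obtain ⟨h1, h2⟩ := not_sep h
  have e : ∀ l : List ℤ, io (evl ga gb l) = mq (quad true l) := fun l => (evl_quad l).1
  rw [e, e]
  obtain ⟨k, rfl | rfl⟩ := Nat.even_or_odd' n
  · rw [fi_even, fi_even]
    exact h1 k hn
  · rw [fi_odd, fi_odd]
    have h3 := h2 k hn
    unfold dpol at h3
    rw [hs, hs'] at h3
    simp only [map_zero, zero_mul, zero_sub, coeff_neg] at h3
    exact neg_inj.1 h3

theorem crossings_twist (i : ℕ) (b : ℤ) : (crossings (twist i b) : ℤ) = 2 * |b| := by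
  unfold crossings twist
  rw [List.countP_replicate]
  have : Piece.isCrossing (if 0 ≤ b then Piece.neg i else Piece.pos i) = true := by
    split_ifs <;> rfl
  rw [if_pos this]
  push_cast
  rfl

theorem crossings_append (x y : Word) : crossings (x ++ y) = crossings x + crossings y :=
  List.countP_append

theorem crossings_twists (m : Bool) (b : List ℤ) {y : ℤ} (h : ∀ x ∈ b, |x| ≤ y) :
    (crossings (twists m b) : ℤ) ≤ 2 * (b.length * y) := by
  induction b generalizing m with
  | nil => simp [twists, crossings]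
  | cons x b ih =>
    have h1 := ih (m := !m) fun z hz => h z (List.mem_cons_of_mem _ hz)
    have h2 := h x (List.mem_cons_self)
    show (crossings (twist _ x ++ twists (!m) b) : ℤ) ≤ _
    rw [crossings_append, List.length_cons]
    push_cast
    rw [crossings_twist]
    nlinarith

theorem crossings_twoBridge (b : List ℤ) {y : ℤ} (h : ∀ x ∈ b, |x| ≤ y) :
    (crossings (twoBridge b) : ℤ) ≤ 2 * (b.length * y) := by
  have h1 := crossings_twists true b h
  unfold twoBridge
  rw [crossings_append, crossings_append]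
  have e1 : crossings [Piece.birth 0 true, Piece.birth 2 true] = 0 := rfl
  have e2 : crossings [Piece.death 1, Piece.death 0] = 0 := rfl
  rw [e1, e2, zero_add, add_zero]
  exact h1

/-- the index set of the digits -/
def II (N : ℕ) : Finset (Σ _ : ℕ, ℕ) := (Finset.Icc 2 N).sigma fun n => Finset.range n

theorem card_II (N : ℕ) : (II N).card = ∑ n ∈ Finset.Icc 2 N, n := by
  unfold II
  rw [Finset.card_sigma]
  simp

open Classical in
/-- the digits of a function -/
def dig {N Y : ℕ} (f : II N → Fin Y) (n t : ℕ) : ℤ :=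
  if h : (⟨n, t⟩ : Σ _ : ℕ, ℕ) ∈ II N then ((f ⟨⟨n, t⟩, h⟩ : ℕ) : ℤ) + 1 else 1

theorem dig_bound {N Y : ℕ} (hY : 1 ≤ Y) (f : II N → Fin Y) (n t : ℕ) :
    1 ≤ dig f n t ∧ dig f n t ≤ Y := by
  unfold dig
  split_ifs with h
  · have := (f ⟨⟨n, t⟩, h⟩).2
    constructor <;> omega
  · constructor <;> omega

/-- **the main theorem** -/
theorem main (N Y : ℕ) : ∃ T : Finset (List ℤ),
    (∀ b ∈ T, b.length = 2 * ∑ n ∈ Finset.Icc 2 N, n * 2 ^ (n - 1) ∧
      ∀ x ∈ b, x ≠ 0 ∧ |x| ≤ Y) ∧
    T.card = Y ^ (∑ n ∈ Finset.Icc 2 N, n) ∧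
    ∀ b ∈ T, ∀ c ∈ T, b ≠ c → Separated N (twoBridge b) (twoBridge c) := by
  classical
  rcases Nat.eq_zero_or_pos Y with hY | hY
  · subst hY
    rcases Nat.lt_or_ge N 2 with hN | hN
    · refine ⟨{[]}, ?_, ?_, ?_⟩
      · intro b hb
        rw [Finset.mem_singleton] at hb
        subst hb
        rw [Finset.Icc_eq_empty (by omega)]
        simp
      · rw [Finset.Icc_eq_empty (by omega)]
        simp
      · intro b hb c hc hne
        rw [Finset.mem_singleton] at hb hc
        exact absurd (hb.trans hc.symm) hne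
    · refine ⟨∅, by simp, ?_, by simp⟩
      have : 0 < ∑ n ∈ Finset.Icc 2 N, n :=
        Finset.sum_pos (fun n hn => by rw [Finset.mem_Icc] at hn; omega)
          ⟨2, Finset.mem_Icc.2 ⟨le_rfl, hN⟩⟩
      rw [Finset.card_empty, zero_pow (by omega)]
  · have hk : ∀ n, 2 ≤ n → (n ≤ N - 1 + 1 ↔ n ≤ N) := fun n hn => by omega
    have hIcc : Finset.Icc 2 (N - 1 + 1) = Finset.Icc 2 N := by
      ext n
      rw [Finset.mem_Icc, Finset.mem_Icc]
      constructor
      · exact fun h => ⟨h.1, (hk n h.1).1 h.2⟩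
      · exact fun h => ⟨h.1, (hk n h.1).2 h.2⟩
    let F : (II N → Fin Y) → List ℤ := fun f => WW Y (dig f) (N - 1)
    have hsep : ∀ f g, ¬ Separated N (twoBridge (F f)) (twoBridge (F g)) → f = g := by
      intro f g h
      have h1 := fi_of_not_sep (WW_sum _ _ _) (WW_sum _ _ _) h
      have h2 := (digits_of_fi (y := Y) (N - 1) (dig f) (dig g) (dig_bound hY f)
        (dig_bound hY g) fun n hn hn' => h1 n ((hk n hn).1 hn')).1
      funext i
      obtain ⟨⟨n, t⟩, hi⟩ := i
      have hi' := hi
      unfold II at hi'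
      rw [Finset.mem_sigma, Finset.mem_Icc, Finset.mem_range] at hi'
      have h3 := h2 n hi'.1.1 ((hk n hi'.1.1).2 hi'.1.2) t hi'.2
      unfold dig at h3
      rw [dif_pos hi, dif_pos hi] at h3
      apply Fin.ext
      omega
    have hns : ∀ l : List ℤ, ¬ Separated N (twoBridge l) (twoBridge l) := by
      rintro l ⟨v, -, -, h⟩
      exact h rfl
    have hinj : Function.Injective F := by
      intro f g h
      apply hsep f g
      rw [h]
      exact hns _
    refine ⟨Finset.univ.image F, ?_, ?_, ?_⟩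
    · intro b hb
      obtain ⟨f, -, rfl⟩ := Finset.mem_image.1 hb
      refine ⟨?_, WW_prop (by exact_mod_cast hY) (dig_bound hY f) _⟩
      show (WW Y (dig f) (N - 1)).length = _
      rw [WW_length, hIcc]
    · rw [Finset.card_image_of_injective _ hinj, Finset.card_univ, Fintype.card_fun,
        Fintype.card_fin, Fintype.card_coe, card_II]
    · intro b hb c hc hne
      obtain ⟨f, -, rfl⟩ := Finset.mem_image.1 hb
      obtain ⟨g, -, rfl⟩ := Finset.mem_image.1 hc
      by_contra h
      exact hne (by rw [hsep f g h])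

theorem sum_genus (N : ℕ) : ∑ n ∈ Finset.Icc 2 N, n * 2 ^ (n - 1) = (N - 1) * 2 ^ N := by
  rcases N with _ | N
  · simp
  · induction N with
    | zero => simp
    | succ N ih =>
      rw [Finset.sum_Icc_succ_top (by omega), ih]
      have e1 : N + 1 + 1 - 1 = N + 1 := by omega
      have e2 : N + 1 - 1 = N := by omega
      rw [e1, e2]
      ring

theorem sum_orders (N : ℕ) : ∑ n ∈ Finset.Icc 2 N, n = N * (N + 1) / 2 - 1 := by
  rcases N with _ | N
  · simp
  · induction N with
    | zero => simp
    | succ N ih =>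
      rw [Finset.sum_Icc_succ_top (by omega), ih]
      have h : (N + 1 + 1) * (N + 1 + 1 + 1) = (N + 1) * (N + 1 + 1) + 2 * (N + 2) := by ring
      have h2 : 2 ≤ (N + 1) * (N + 1 + 1) := by nlinarith
      omega

end

end Pool.Agent.H66.TBG
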