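import Pool.Agent.H66.TBG.Alt

/-!
# The matrices of two-bridge knots
-/

set_option autoImplicit false

namespace Pool.Agent.H66.TBG

open Pool.Agent.N518.KT Pool.Agent.K7.H38.TB Polynomial Matrix

noncomputable section

/-- the matrices -/
abbrev MM : Type := Matrix (Fin 2) (Fin 2) ℤ[X]

/-- the group -/
abbrev GG : Type := Matrix.SpecialLinearGroup (Fin 2) ℤ[X]

/-- the inclusion of the group -/
def io : GG →* MM where
  toFun g := (g : MM)
  map_one' := rfl
  map_mul' _ _ := rfl

/-- the filtration by the powers of the variable -/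
def TT (k : ℕ) : Submodule ℤ MM where
  carrier := {M | ∀ i j, (X : ℤ[X]) ^ k ∣ M i j}
  add_mem' := fun h h' i j => dvd_add (h i j) (h' i j)
  zero_mem' := fun _ _ => dvd_zero _
  smul_mem' := fun c M h i j => by
    rw [Matrix.smul_apply]
    exact dvd_smul_of_dvd c (h i j)

theorem mem_TT {k : ℕ} {M : MM} : M ∈ TT k ↔ ∀ i j, (X : ℤ[X]) ^ k ∣ M i j := Iff.rfl

theorem filt : Filt io TT where
  anti k := fun M h i j => (pow_dvd_pow _ (Nat.le_succ k)).trans (h i j)
  mul k l a b ha hb := by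
    intro i j
    rw [Matrix.mul_apply]
    refine Finset.dvd_sum fun x _ => ?_
    rw [pow_add]
    exact mul_dvd_mul (ha i x) (hb x j)
  mem g := fun i j => by rw [pow_zero]; exact one_dvd _

/-- the first generator `(1, z; 0, 1)` -/
def ga : GG := ⟨!![1, X; 0, 1], by simp [Matrix.det_fin_two]⟩
/-- the second generator `(1, 0; z, 1)` -/
def gb : GG := ⟨!![1, 0; X, 1], by simp [Matrix.det_fin_two]⟩

theorem ga_zpow (e : ℤ) : ((ga ^ e : GG) : MM) = !![1, C e * X; 0, 1] := by
  have key : ∀ n : ℕ, ((ga ^ n : GG) : MM) = !![1, C (n : ℤ) * X; 0, 1] := by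
    intro n
    induction n with
    | zero =>
      refine Matrix.ext fun i j => ?_
      fin_cases i <;> fin_cases j <;> simp
    | succ n ih =>
      rw [pow_succ, Matrix.SpecialLinearGroup.coe_mul, ih]
      refine Matrix.ext fun i j => ?_
      fin_cases i <;> fin_cases j <;> simp [ga, Matrix.mul_apply, Fin.sum_univ_two]
      ring
  obtain ⟨n, rfl | rfl⟩ := e.eq_nat_or_neg
  · rw [zpow_natCast]; exact key n
  · rw [_root_.zpow_neg, zpow_natCast, Matrix.SpecialLinearGroup.coe_inv, key, Matrix.adjugate_fin_two]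
    refine Matrix.ext fun i j => ?_
    fin_cases i <;> fin_cases j <;> simp

theorem gb_zpow (e : ℤ) : ((gb ^ e : GG) : MM) = !![1, 0; C e * X, 1] := by
  have key : ∀ n : ℕ, ((gb ^ n : GG) : MM) = !![1, 0; C (n : ℤ) * X, 1] := by
    intro n
    induction n with
    | zero =>
      refine Matrix.ext fun i j => ?_
      fin_cases i <;> fin_cases j <;> simp
    | succ n ih =>
      rw [pow_succ, Matrix.SpecialLinearGroup.coe_mul, ih]
      refine Matrix.ext fun i j => ?_
      fin_cases i <;> fin_cases j <;> simp [gb, Matrix.mul_apply, Fin.sum_univ_two]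
      ring
  obtain ⟨n, rfl | rfl⟩ := e.eq_nat_or_neg
  · rw [zpow_natCast]; exact key n
  · rw [_root_.zpow_neg, zpow_natCast, Matrix.SpecialLinearGroup.coe_inv, key, Matrix.adjugate_fin_two]
    refine Matrix.ext fun i j => ?_
    fin_cases i <;> fin_cases j <;> simp

/-- the matrix of a quadruple -/
def mq (Q : Quad ℤ) : MM :=
  !![expand ℤ 2 Q.A, X * expand ℤ 2 Q.B; X * expand ℤ 2 Q.C, expand ℤ 2 Q.D]

/-- the alternating products are the matrices of the continuants -/
theorem evl_quad (l : List ℤ) : ((evl ga gb l : GG) : MM) = mq (quad true l) ∧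
    ((evl gb ga l : GG) : MM) = mq (quad false l) := by
  induction l with
  | nil =>
    constructor <;>
    · refine Matrix.ext fun i j => ?_
      fin_cases i <;> fin_cases j <;> simp [evl, mq, quad]
  | cons e l ih =>
    obtain ⟨i1, i2⟩ := ih
    constructor
    · rw [evl, Matrix.SpecialLinearGroup.coe_mul, i2, ga_zpow]
      refine Matrix.ext fun i j => ?_
      fin_cases i <;> fin_cases j <;>
        simp [mq, quad, Matrix.mul_apply, Fin.sum_univ_two] <;> ring
    · rw [evl, Matrix.SpecialLinearGroup.coe_mul, i1, gb_zpow]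
      refine Matrix.ext fun i j => ?_
      fin_cases i <;> fin_cases j <;>
        simp [mq, quad, Matrix.mul_apply, Fin.sum_univ_two] <;> ring

/-! ### the coefficients -/

/-- the coefficients of the invariants: of `z ^ n` in `A` (`n` even), in `B + C` (`n` odd) -/
def fi (n : ℕ) : MM →+ ℤ where
  toFun M := if Even n then (M 0 0).coeff n else (M 0 1).coeff n + (M 1 0).coeff n
  map_zero' := by simp
  map_add' M M' := by
    split_ifs
    · simp
    · simp; ring

theorem fi_TT {n k : ℕ} (h : n < k) {M : MM} (hM : M ∈ TT k) : fi n M = 0 := by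
  have key : ∀ i j, (M i j).coeff n = 0 := fun i j => Polynomial.X_pow_dvd_iff.1 (hM i j) n h
  show (if Even n then (M 0 0).coeff n else (M 0 1).coeff n + (M 1 0).coeff n) = 0
  rw [key, key, key]
  simp

theorem fi_even (Q : Quad ℤ) (k : ℕ) : fi (2 * k) (mq Q) = Q.A.coeff k := by
  show (if Even (2 * k) then ((mq Q) 0 0).coeff (2 * k) else _) = _
  rw [if_pos (even_two_mul k)]
  show (expand ℤ 2 Q.A).coeff (2 * k) = _
  rw [mul_comm, Polynomial.coeff_expand_mul (by norm_num)]

theorem fi_odd (Q : Quad ℤ) (k : ℕ) : fi (2 * k + 1) (mq Q) = (Q.B + Q.C).coeff k := by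
  show (if Even (2 * k + 1) then _ else ((mq Q) 0 1).coeff (2 * k + 1) +
    ((mq Q) 1 0).coeff (2 * k + 1)) = _
  rw [if_neg (by rw [Nat.not_even_iff_odd]; exact odd_two_mul_add_one k)]
  show (X * expand ℤ 2 Q.B).coeff (2 * k + 1) + (X * expand ℤ 2 Q.C).coeff (2 * k + 1) = _
  rw [Polynomial.coeff_X_mul, Polynomial.coeff_X_mul, mul_comm 2 k,
    Polynomial.coeff_expand_mul (by norm_num), Polynomial.coeff_expand_mul (by norm_num),
    Polynomial.coeff_add]

/-! ### the leading terms -/

/-- the leading term of the first generator -/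
def EE : MM := !![0, X; 0, 0]
/-- the leading term of the second generator -/
def FF : MM := !![0, 0; X, 0]

theorem lead_ga : Lead io TT 1 EE ga := by
  refine ⟨?_, ?_⟩
  · intro i j
    fin_cases i <;> fin_cases j <;> simp [EE]
  · have e : io ga - 1 - EE = 0 := by
      refine Matrix.ext fun i j => ?_
      fin_cases i <;> fin_cases j <;> simp [EE, io, ga]
    rw [e]
    exact (TT 2).zero_mem

theorem lead_gb : Lead io TT 1 FF gb := by
  refine ⟨?_, ?_⟩
  · intro i j
    fin_cases i <;> fin_cases j <;> simp [FF]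
  · have e : io gb - 1 - FF = 0 := by
      refine Matrix.ext fun i j => ?_
      fin_cases i <;> fin_cases j <;> simp [FF, io, gb]
    rw [e]
    exact (TT 2).zero_mem

theorem altr_val (k : ℕ) :
    altr EE FF (2 * k) = !![0, C ((2 : ℤ) ^ k) * X ^ (2 * k + 1); 0, 0] ∧
    altr FF EE (2 * k) = !![0, 0; C ((2 : ℤ) ^ k) * X ^ (2 * k + 1), 0] ∧
    altr EE FF (2 * k + 1) = !![C ((2 : ℤ) ^ k) * X ^ (2 * k + 2), 0;
      0, -(C ((2 : ℤ) ^ k) * X ^ (2 * k + 2))] ∧
    altr FF EE (2 * k + 1) = !![-(C ((2 : ℤ) ^ k) * X ^ (2 * k + 2)), 0;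
      0, C ((2 : ℤ) ^ k) * X ^ (2 * k + 2)] := by
  have step1 : ∀ k : ℕ, altr FF EE (2 * k) = !![0, 0; C ((2 : ℤ) ^ k) * X ^ (2 * k + 1), 0] →
      altr EE FF (2 * k + 1) = !![C ((2 : ℤ) ^ k) * X ^ (2 * k + 2), 0;
      0, -(C ((2 : ℤ) ^ k) * X ^ (2 * k + 2))] := by
    intro k h
    rw [altr, h]
    refine Matrix.ext fun i j => ?_
    fin_cases i <;> fin_cases j <;>
      simp [rc, EE, Matrix.mul_apply, Fin.sum_univ_two] <;> ring
  have step2 : ∀ k : ℕ, altr EE FF (2 * k) = !![0, C ((2 : ℤ) ^ k) * X ^ (2 * k + 1); 0, 0] →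
      altr FF EE (2 * k + 1) = !![-(C ((2 : ℤ) ^ k) * X ^ (2 * k + 2)), 0;
      0, C ((2 : ℤ) ^ k) * X ^ (2 * k + 2)] := by
    intro k h
    rw [altr, h]
    refine Matrix.ext fun i j => ?_
    fin_cases i <;> fin_cases j <;>
      simp [rc, FF, Matrix.mul_apply, Fin.sum_univ_two] <;> ring
  have main : ∀ k : ℕ, altr EE FF (2 * k) = !![0, C ((2 : ℤ) ^ k) * X ^ (2 * k + 1); 0, 0] ∧
      altr FF EE (2 * k) = !![0, 0; C ((2 : ℤ) ^ k) * X ^ (2 * k + 1), 0] := by
    intro k
    induction k with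
    | zero =>
      constructor
      · refine Matrix.ext fun i j => ?_
        fin_cases i <;> fin_cases j <;> simp [altr, EE]
      · refine Matrix.ext fun i j => ?_
        fin_cases i <;> fin_cases j <;> simp [altr, FF]
    | succ k ih =>
      obtain ⟨h1, h2⟩ := ih
      constructor
      · have e : 2 * (k + 1) = 2 * k + 1 + 1 := by ring
        rw [e, altr, step2 k h1]
        refine Matrix.ext fun i j => ?_
        fin_cases i <;> fin_cases j <;>
          simp [rc, EE, Matrix.mul_apply, Fin.sum_univ_two] <;> ring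
      · have e : 2 * (k + 1) = 2 * k + 1 + 1 := by ring
        rw [e, altr, step1 k h2]
        refine Matrix.ext fun i j => ?_
        fin_cases i <;> fin_cases j <;>
          simp [rc, FF, Matrix.mul_apply, Fin.sum_univ_two] <;> ring
  exact ⟨(main k).1, (main k).2, step1 k (main k).2, step2 k (main k).1⟩

/-- the coefficient of the leading term is not zero -/
theorem fi_altr (n : ℕ) : ∃ c : ℤ, c ≠ 0 ∧ fi (n + 1) (altr EE FF n) = c := by
  obtain ⟨k, rfl | rfl⟩ := Nat.even_or_odd' n
  · refine ⟨2 ^ k, by positivity, ?_⟩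
    show (if Even (2 * k + 1) then _ else (altr EE FF (2 * k) 0 1).coeff (2 * k + 1) +
      (altr EE FF (2 * k) 1 0).coeff (2 * k + 1)) = _
    rw [if_neg (by rw [Nat.not_even_iff_odd]; exact odd_two_mul_add_one k), (altr_val k).1]
    show (C ((2 : ℤ) ^ k) * X ^ (2 * k + 1)).coeff (2 * k + 1) +
      (0 : ℤ[X]).coeff (2 * k + 1) = 2 ^ k
    rw [coeff_C_mul, coeff_X_pow_self, mul_one, coeff_zero, add_zero]
  · refine ⟨2 ^ k, by positivity, ?_⟩
    show (if Even (2 * k + 1 + 1) then (altr EE FF (2 * k + 1) 0 0).coeff (2 * k + 1 + 1)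
      else _) = _
    rw [if_pos ⟨k + 1, by ring⟩, (altr_val k).2.2.1]
    show (C ((2 : ℤ) ^ k) * X ^ (2 * k + 2)).coeff (2 * k + 2) = 2 ^ k
    rw [coeff_C_mul, coeff_X_pow_self, mul_one]

end

end Pool.Agent.H66.TBG
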